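import Pool.Agent.Lib.MP_2a1ef3_lc.Main

/-!
MP_2a1ef3_lc: solvability of polynomial equations in rational numbers reduces to
context-freeness of bounded languages given by semilinear sets.
-/

set_option autoImplicit false

namespace Pool.Agent.Results.MP_2a1ef3_lc.RationalPoints

open Pool.Agent.MP2a1ef3

/-- The decision problem of the question for `n` letters. The input is a finite list of pairs
(base, list of periods); the predicate says that the language of the words `a₁^k₁ ... aₙ^kₙ` with
`k` in the union of the linear sets is context-free. -/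
def CF (n : ℕ) (S : List ((Fin n → ℕ) × List (Fin n → ℕ))) : Prop :=
  Language.IsContextFree
    ((setOf (fun w : List (Fin n) =>
        ∃ k : Fin n → ℕ,
          (∃ p ∈ S, ∃ c : Fin p.2.length → ℕ,
              k = p.1 + ∑ i, c i • p.2.get i) ∧
          w = (List.ofFn (fun i : Fin n => List.replicate (k i) i)).flatten))
      : Language (Fin n))

/-- The equation `P(a, y) = 0` with natural parameters `a` has a solution `y` in rational
numbers. -/
def RatSolvable {k m : ℕ} (P : MvPolynomial (Fin k ⊕ Fin m) ℤ) (a : Fin k → ℕ) : Prop :=
  ∃ y : Fin m → ℚ, MvPolynomial.aeval (Sum.elim (fun i => (a i : ℚ)) y) P = 0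

/-- Every set of natural vectors that is Diophantine over the rational numbers many-one reduces
to the decision problem of the question, for a suitable number of letters. -/
theorem result (k m : ℕ) (P : MvPolynomial (Fin k ⊕ Fin m) ℤ) :
    ∃ n : ℕ, 1 ≤ n ∧ ManyOneReducible (RatSolvable P) (CF n) := by
  obtain ⟨n, F, hn, hF, h⟩ := reduction k m P
  refine ⟨n, hn, F, hF.to_comp, fun a => ?_⟩
  refine (h a).trans ?_
  have : langOf {x | ∃ q ∈ F a, ∃ t : Fin q.2.length → ℕ, x = q.1 + ∑ i, t i • q.2.get i} =
      ((setOf (fun w : List (Fin n) =>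
        ∃ k : Fin n → ℕ,
          (∃ p ∈ F a, ∃ c : Fin p.2.length → ℕ,
              k = p.1 + ∑ i, c i • p.2.get i) ∧
          w = (List.ofFn (fun i : Fin n => List.replicate (k i) i)).flatten))
      : Language (Fin n)) := rfl
  rw [this]
  rfl

end Pool.Agent.Results.MP_2a1ef3_lc.RationalPoints
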