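import Pool.Agent.Lib.MP_2a1ef3_lc.N3.Main

/-!
MP_2a1ef3_lc: for at most three letters it is decidable, given a semilinear set `M`, whether the
language of the words `a₁^k₁ ... aₙ^kₙ` with `k ∈ M` is context-free.
-/

set_option autoImplicit false

namespace Pool.Agent.Results.MP_2a1ef3_lc.ThreeLetters

/-- The decision problem of the question for `n` letters. The input is a finite list of pairs
(base, list of periods); the predicate says that the language of the words `a₁^k₁ ... aₙ^kₙ` with
`k` in the union of the linear sets is context-free. -/
def CF (n : ℕ) (S : List ((Fin n → ℕ) × List (Fin n → ℕ))) : Prop :=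
  Language.IsContextFree
    ((setOf (fun w : List (Fin n) =>
        ∃ k : Fin n → ℕ,
          (∃ p ∈ S, ∃ c : Fin p.2.length → ℕ,
              k = p.1 + ∑ i, c i • p.2.get i) ∧
          w = (List.ofFn (fun i : Fin n => List.replicate (k i) i)).flatten))
      : Language (Fin n))

/-- For `n ≤ 3` letters the decision problem of the question is decidable. -/
theorem result : ∀ n : ℕ, 1 ≤ n → n ≤ 3 → ComputablePred (CF n) :=
  fun n _ hn => Pool.Agent.MP2a1ef3.N3.main n hn

end Pool.Agent.Results.MP_2a1ef3_lc.ThreeLetters
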